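import Mathlib
import Pool.Agent.Helper25.RA.Frame

/-!
A finite table (types `Fin n`), given by three numbers which hold 0/1 rows, is checked by a
boolean function; a table that passes gives a representation on the natural numbers.
-/

namespace Pool.Agent.Helper7.RAS

open Pool.Agent.Helper25.RA

/-- bounded conjunction -/
def allB : Nat → (Nat → Bool) → Bool
  | 0, _ => true
  | k + 1, p => p k && allB k p

theorem allB_spec {n : Nat} {p : Nat → Bool} (h : allB n p = true) :
    ∀ i, i < n → p i = true := by
  induction n with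
  | zero => intro i hi; omega
  | succ k ih =>
    rw [allB, Bool.and_eq_true] at h
    intro i hi
    rcases Nat.lt_succ_iff_lt_or_eq.mp hi with h1 | h1
    · exact ih h.2 i h1
    · rw [h1]; exact h.1

/-- the cell number `j` (width 80) of the table `T` -/
def cell (T j : Nat) : Nat := (T >>> (80 * j)) % 1208925819614629174706176

/-- `k, t, u` in some order are `i, i, i + 2` mod 6 (numbers below 6) -/
def badN (k t u : Nat) : Bool :=
  (k == t && u == (k + 2) % 6) || (k == u && t == (k + 2) % 6) || (t == u && k == (t + 2) % 6)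

theorem badN_spec (k t u : Fin 6) : badN k t u = true ↔ Bad k t u := by
  revert k t u; decide

/-- cells are smaller than `2 ^ n` -/
def okSize (n TA : Nat) : Bool :=
  allB n fun r => allB 6 fun c => Nat.blt (cell TA (6 * r + c)) (2 ^ n)

/-- `TW` contains the pairs of `TA` in both orders -/
def okW (n TA TW : Nat) : Bool :=
  allB n fun r => allB n fun q => allB 6 fun c =>
    !((cell TA (6 * r + c)).testBit q || (cell TA (6 * q + c)).testBit r) ||
      (cell TW (6 * r + c)).testBit q

/-- the default colours are in `TA`, and exist -/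
def okF (n TA TF : Nat) : Bool :=
  allB n fun s => allB n fun q =>
    (allB 6 fun f => !((cell TF (6 * s + f)).testBit q) || (cell TA (6 * q + f)).testBit s) &&
      !(allB 6 fun f => !((cell TF (6 * s + f)).testBit q))

/-- no forbidden triangle -/
def okB (n TA TW TF : Nat) : Bool :=
  allB n fun s => allB n fun r => allB 6 fun t =>
    !((cell TA (6 * r + t)).testBit s) ||
      (((cell TF (6 * s + t)) &&& (cell TW (6 * r + (t + 2) % 6))) == 0 &&
        ((cell TF (6 * s + (t + 2) % 6)) &&& (cell TW (6 * r + t))) == 0 &&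
        ((cell TF (6 * s + (t + 4) % 6)) &&& (cell TW (6 * r + (t + 4) % 6))) == 0)

/-- the demands at pairs of types below `m` -/
def okC (m TA TW : Nat) : Bool :=
  allB m fun r => allB m fun q => allB 6 fun t => allB 6 fun u =>
    !(((cell TA (6 * r + t)) &&& (cell TA (6 * q + u))) == 0) ||
      (allB 6 fun k => !((cell TW (6 * r + k)).testBit q) || badN k t u)

theorem Bad.cases3 {t f c : Fin 6} (h : Bad t f c) :
    (f.1 = t.1 ∧ c.1 = (t.1 + 2) % 6) ∨ (f.1 = (t.1 + 2) % 6 ∧ c.1 = t.1) ∨
      (f.1 = (t.1 + 4) % 6 ∧ c.1 = (t.1 + 4) % 6) := by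
  revert t f c; decide

/-- relation of the table -/
def Rel {n : Nat} (TA : Nat) (s r : Fin n) (t : Fin 6) : Prop :=
  (cell TA (6 * r.1 + t.1)).testBit s.1 = true

theorem land_contra {a b i : Nat} (ha : a.testBit i = true) (hb : b.testBit i = true)
    (h : (a &&& b == 0) = true) : False := by
  have h0 : a &&& b = 0 := by simpa using h
  have h1 : (a &&& b).testBit i = true := by rw [Nat.testBit_land, ha, hb]; rfl
  rw [h0, Nat.zero_testBit] at h1
  exact Bool.noConfusion h1

/-- **A table that passes the check gives a representation.** -/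
theorem of_table {n TA TW TF : Nat} (hn : 0 < n) (hS : okSize n TA = true)
    (hW : okW n TA TW = true) (hF : okF n TA TF = true) (hB : okB n TA TW TF = true)
    (hC : okC n TA TW = true) :
    ∃ c : ℕ → ℕ → Fin 6, (∀ x y, x ≠ y → c x y = c y x) ∧
      (∀ x y z, x ≠ y → y ≠ z → x ≠ z → ¬ Bad (c x y) (c y z) (c x z)) ∧
      (∀ x y, x ≠ y → ∀ t u, ¬ Bad (c x y) t u → ∃ w, w ≠ x ∧ w ≠ y ∧ c x w = t ∧ c w y = u) := by
  classical
  have : Nonempty (Fin n) := ⟨⟨0, hn⟩⟩
  have hW' : ∀ (r q : Fin n) (c : Fin 6), (Rel TA r q c ∨ Rel TA q r c) →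
      (cell TW (6 * r.1 + c.1)).testBit q.1 = true := by
    intro r q c h
    have h1 := allB_spec (allB_spec (allB_spec hW r.1 r.2) q.1 q.2) c.1 c.2
    rw [Bool.or_eq_true] at h1
    rcases h1 with h1 | h1
    · exfalso
      rw [Bool.not_eq_true', Bool.or_eq_false_iff] at h1
      rcases h with h | h
      · unfold Rel at h
        rw [h1.2] at h
        exact Bool.noConfusion h
      · unfold Rel at h
        rw [h1.1] at h
        exact Bool.noConfusion h
    · exact h1
  have hF1 : ∀ (s q : Fin n), ∃ f : Fin 6, (cell TF (6 * s.1 + f.1)).testBit q.1 = true := by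
    intro s q
    have h1 := allB_spec (allB_spec hF s.1 s.2) q.1 q.2
    rw [Bool.and_eq_true] at h1
    by_contra hcon
    push Not at hcon
    have h2 := h1.2
    rw [Bool.not_eq_true'] at h2
    have h3 : allB 6 (fun f => !((cell TF (6 * s.1 + f)).testBit q.1)) = true := by
      simp only [allB, Bool.and_true, Bool.and_eq_true, Bool.not_eq_true']
      have e : ∀ f : Fin 6, (cell TF (6 * s.1 + f.1)).testBit q.1 = false := fun f => by
        simpa using hcon f
      exact ⟨e 5, e 4, e 3, e 2, e 1, e 0⟩
    rw [h3] at h2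
    exact Bool.noConfusion h2
  have hF2 : ∀ (s q : Fin n) (f : Fin 6), (cell TF (6 * s.1 + f.1)).testBit q.1 = true →
      Rel TA s q f := by
    intro s q f hf
    have h1 := allB_spec (allB_spec hF s.1 s.2) q.1 q.2
    rw [Bool.and_eq_true] at h1
    have h2 := allB_spec h1.1 f.1 f.2
    rw [Bool.or_eq_true, hf] at h2
    rcases h2 with h2 | h2
    · exact absurd h2 (by decide)
    · exact h2
  choose F hFs using hF1
  refine frame (F := F) (A := fun s r t => Rel TA s r t) (fun s r => hF2 s r _ (hFs s r)) ?_ ?_
  · intro s r q t c hst hrq hbad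
    have hw := hW' r q c hrq
    have h1 := allB_spec (allB_spec (allB_spec hB s.1 s.2) r.1 r.2) t.1 t.2
    rw [Bool.or_eq_true] at h1
    rcases h1 with h1 | h1
    · rw [Bool.not_eq_true'] at h1
      unfold Rel at hst
      rw [h1] at hst
      exact Bool.noConfusion hst
    · rw [Bool.and_eq_true, Bool.and_eq_true] at h1
      have hf := hFs s q
      rcases Bad.cases3 hbad with ⟨e1, e2⟩ | ⟨e1, e2⟩ | ⟨e1, e2⟩
      · rw [e1] at hf; rw [e2] at hw
        exact land_contra hf hw h1.1.1
      · rw [e1] at hf; rw [e2] at hw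
        exact land_contra hf hw h1.1.2
      · rw [e1] at hf; rw [e2] at hw
        exact land_contra hf hw h1.2
  · intro r q k t u hk hbad
    have hw := hW' r q k hk
    have h1 := allB_spec (allB_spec (allB_spec (allB_spec hC r.1 r.2) q.1 q.2) t.1 t.2) u.1 u.2
    rw [Bool.or_eq_true] at h1
    rcases h1 with h1 | h1
    · rw [Bool.not_eq_true'] at h1
      have h2 : (cell TA (6 * r.1 + t.1)) &&& (cell TA (6 * q.1 + u.1)) ≠ 0 := by
        intro h0
        rw [h0] at h1
        exact absurd h1 (by decide)
      obtain ⟨i, hi⟩ := Nat.exists_testBit_of_ne_zero h2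
      rw [Nat.testBit_land, Bool.and_eq_true] at hi
      have hin : i < n := by
        by_contra hge
        have h3 := allB_spec (allB_spec hS r.1 r.2) t.1 t.2
        have h4 : cell TA (6 * r.1 + t.1) < 2 ^ n := by
          simpa [Nat.blt_eq] using h3
        have h5 : cell TA (6 * r.1 + t.1) < 2 ^ i :=
          lt_of_lt_of_le h4 (Nat.pow_le_pow_right (by norm_num) (by omega))
        rw [Nat.testBit_lt_two_pow h5] at hi
        exact Bool.noConfusion hi.1
      exact ⟨⟨i, hin⟩, hi.1, hi.2⟩
    · exfalso
      have h2 := allB_spec h1 k.1 k.2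
      rw [Bool.or_eq_true, hw] at h2
      rcases h2 with h2 | h2
      · exact absurd h2 (by decide)
      · exact hbad ((badN_spec k t u).mp h2)

end Pool.Agent.Helper7.RAS
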