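import Mathlib
import Pool.Agent.Helper7.RAS.Scheme7
import Pool.Agent.Helper25.RA.FreeFrame

/-!
Finite tables for the scheme with free pairs: default colours `0 .. 5` (natural, `2 * value + letter`)
and `6, 7` (free, letter 0 or 1), and exceptional colours. Boolean checks and what they give.
-/

namespace Pool.Agent.Helper7.Fx

open Pool.Agent.Helper25.RA Pool.Agent.Helper7.RAS

/-- row number `j` (width 64) of the table `T` -/
def cw (T j : Nat) : Nat := (T >>> (64 * j)) % 18446744073709551616

/-- row of the default colour `k` at the part `x` -/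
def C (TC x k : Nat) : Nat := cw TC (8 * x + k)

/-- row of the exceptional colour `b` at the host part `x` (bits: newborn parts) -/
def E (TE x b : Nat) : Nat := cw TE (6 * x + b)

/-- all default colours of the letter `L` -/
def LM (TC x L : Nat) : Nat := C TC x L ||| (C TC x (2 + L) ||| (C TC x (4 + L) ||| C TC x (6 + L)))

/-- all natural colours of the letter `L` -/
def NA (TC x L : Nat) : Nat := C TC x L ||| (C TC x (2 + L) ||| C TC x (4 + L))

/-- all exceptional colours of the letter `L` -/
def EL (TE x L : Nat) : Nat := E TE x L ||| (E TE x (2 + L) ||| E TE x (4 + L))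

/-- available colours -/
def AV (TC TE x p : Nat) : Nat := C TC x p ||| (C TC x (6 + p % 2) ||| E TE x p)

/-- some number below `n` -/
def anyB : Nat → (Nat → Bool) → Bool
  | 0, _ => false
  | k + 1, p => p k || anyB k p

theorem anyB_spec {n : Nat} {p : Nat → Bool} (h : anyB n p = true) : ∃ i, i < n ∧ p i = true := by
  induction n with
  | zero => exact Bool.noConfusion h
  | succ k ih =>
    rw [anyB, Bool.or_eq_true] at h
    rcases h with h | h
    · exact ⟨k, by omega, h⟩
    · obtain ⟨i, hi, hp⟩ := ih h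
      exact ⟨i, by omega, hp⟩

/-- sizes -/
def okSize (n TC TE : Nat) : Bool :=
  allB n fun x => (allB 8 fun k => Nat.blt (C TC x k) (2 ^ n)) &&
    (allB 6 fun k => Nat.blt (E TE x k) (2 ^ n))

/-- every pair has exactly one default colour -/
def okHot (n TC : Nat) : Bool :=
  allB n fun x => (allB n fun y => anyB 8 fun k => (C TC x k).testBit y) &&
    (allB 8 fun k => allB 8 fun j => k == j || (C TC x k &&& C TC x j) == 0)

/-- symmetry -/
def okSym (n TC : Nat) : Bool :=
  allB n fun x => allB n fun y => allB 8 fun k => !((C TC x k).testBit y) || (C TC y k).testBit x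

/-- `TR` contains the transpose of `TE` -/
def okTr (n TE TR : Nat) : Bool :=
  allB n fun x => allB n fun u => allB 6 fun b => !((E TE x b).testBit u) || (E TR u b).testBit x

/-- no forbidden natural triple -/
def okT1 (n TC : Nat) : Bool :=
  allB n fun x => allB n fun y => allB 6 fun k =>
    !((C TC x k).testBit y) ||
      ((C TC x k &&& C TC y ((k + 2) % 6)) == 0 &&
        ((C TC x ((k + 2) % 6) &&& C TC y k) == 0 &&
          (C TC x ((k + 4) % 6) &&& C TC y ((k + 4) % 6)) == 0))

/-- a free pair is in no triple of its letter -/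
def okT2 (n TC : Nat) : Bool :=
  allB n fun x => allB n fun y => allB 2 fun L =>
    !((C TC x (6 + L)).testBit y) || (LM TC x L &&& LM TC y L) == 0

/-- exceptional colours are not default colours -/
def okX0 (n TC TE : Nat) : Bool :=
  allB n fun x => allB 6 fun c => (E TE x c &&& (C TC x c ||| C TC x (6 + c % 2))) == 0

/-- the conditions on exceptional colours -/
def okX (n TC TE TR : Nat) : Bool :=
  allB n fun x => allB n fun w => allB 6 fun c =>
    !((E TE x c).testBit w) ||
      (((C TC w (6 + c % 2) &&& NA TC x (c % 2)) == 0 &&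
        (NA TC w (c % 2) &&& C TC x (6 + c % 2)) == 0) &&
      (((C TC w c &&& C TC x ((c + 2) % 6)) == 0 &&
        ((C TC w ((c + 2) % 6) &&& C TC x c) == 0 &&
          (C TC w ((c + 4) % 6) &&& C TC x ((c + 4) % 6)) == 0)) &&
      (((C TC w c &&& E TE x ((c + 2) % 6)) == 0 &&
        ((C TC w ((c + 2) % 6) &&& E TE x c) == 0 &&
          (C TC w ((c + 4) % 6) &&& E TE x ((c + 4) % 6)) == 0)) &&
      ((C TC w c &&& E TR x ((c + 2) % 6)) == 0 &&
        ((C TC w ((c + 2) % 6) &&& E TR x c) == 0 &&
          (C TC w ((c + 4) % 6) &&& E TR x ((c + 4) % 6)) == 0)))))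

/-- the parts of `DD` have no exceptional pair among the parts free to them -/
def okD (n TC TE DD : Nat) : Bool :=
  allB 2 fun L => allB n fun w =>
    !((cw DD L).testBit w) ||
      (allB n fun z => !((C TC w (6 + L)).testBit z) || (EL TE z L &&& C TC w (6 + L)) == 0)

/-- the demand `(p, q)` at `(x, y)` is served -/
def serve (n TC TE DD x y p q : Nat) : Bool :=
  if p % 2 == q % 2 then
    (!((AV TC TE x p &&& AV TC TE y q) ==
      ((AV TC TE x p &&& AV TC TE y q) &&& (E TE x p &&& E TE y q)))) ||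
    (anyB n fun w => ((E TE x p &&& E TE y q) &&& cw DD (p % 2)).testBit w &&
      (C TC w (6 + p % 2) &&& (LM TC x (p % 2) &&& LM TC y (p % 2))) == 0)
  else !((AV TC TE x p &&& AV TC TE y q) == 0)

/-- possible colours of a pair -/
def poss (TC TE x y e : Nat) : Bool :=
  ((C TC x e).testBit y || (C TC x (6 + e % 2)).testBit y) ||
    ((E TE y e).testBit x || (E TE x e).testBit y)

/-- all demands are served -/
def okReq (n TC TE DD : Nat) : Bool :=
  allB n fun x => allB n fun y => allB 6 fun p => allB 6 fun q =>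
    serve n TC TE DD x y p q || (allB 6 fun e => !(poss TC TE x y e) || badN e p q)

/-- all checks -/
def okAll (n TC TE TR DD : Nat) : Bool :=
  okSize n TC TE && (okHot n TC && (okSym n TC && (okTr n TE TR && (okT1 n TC && (okT2 n TC &&
    (okX0 n TC TE && (okX n TC TE TR && (okD n TC TE DD && okReq n TC TE DD))))))))

section spec

variable {n TC TE TR DD : Nat}

open Classical in
/-- the default colour of a pair -/
noncomputable def col (TC : Nat) (x y : Fin n) : Fin 8 :=
  if h : ∃ k : Fin 8, (C TC x.1 k.1).testBit y.1 = true then h.choose else 0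

/-- exceptional colours -/
def ex (TE : Nat) (w x : Fin n) (c : Fin 6) : Prop := (E TE x.1 c.1).testBit w.1 = true

theorem anyB8 {p : Nat → Bool} (h : anyB 8 p = true) : ∃ k : Fin 8, p k.1 = true := by
  obtain ⟨i, hi, hp⟩ := anyB_spec h
  exact ⟨⟨i, hi⟩, hp⟩

theorem col_iff (h : okHot n TC = true) (x y : Fin n) (k : Nat) (hk : k < 8) :
    (C TC x.1 k).testBit y.1 = true ↔ (col TC x y).1 = k := by
  have h1 := allB_spec h x.1 x.2
  rw [Bool.and_eq_true] at h1
  have hex := anyB8 (allB_spec h1.1 y.1 y.2)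
  have hc : (C TC x.1 (col TC x y).1).testBit y.1 = true := by
    unfold col
    rw [dif_pos hex]
    exact hex.choose_spec
  constructor
  · intro hb
    have h2 := allB_spec (allB_spec h1.2 (col TC x y).1 (col TC x y).2) k hk
    rw [Bool.or_eq_true] at h2
    rcases h2 with h2 | h2
    · exact by simpa using h2
    · exact absurd (land_contra hc hb h2) id
  · rintro rfl; exact hc

theorem LM_iff (h : okHot n TC = true) (x y : Fin n) (L : Nat) (hL : L < 2) :
    (LM TC x.1 L).testBit y.1 = true ↔ (col TC x y).1 % 2 = L := by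
  have e : (LM TC x.1 L).testBit y.1 = true ↔
      (C TC x.1 L).testBit y.1 = true ∨ (C TC x.1 (2 + L)).testBit y.1 = true ∨
        (C TC x.1 (4 + L)).testBit y.1 = true ∨ (C TC x.1 (6 + L)).testBit y.1 = true := by
    unfold LM
    simp only [Nat.testBit_lor, Bool.or_eq_true]
  rw [e, col_iff h x y L (by omega), col_iff h x y (2 + L) (by omega),
    col_iff h x y (4 + L) (by omega), col_iff h x y (6 + L) (by omega)]
  have := (col TC x y).2
  omega

theorem NA_iff (h : okHot n TC = true) (x y : Fin n) (L : Nat) (hL : L < 2) :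
    (NA TC x.1 L).testBit y.1 = true ↔ (col TC x y).1 % 2 = L ∧ (col TC x y).1 < 6 := by
  have e : (NA TC x.1 L).testBit y.1 = true ↔
      (C TC x.1 L).testBit y.1 = true ∨ (C TC x.1 (2 + L)).testBit y.1 = true ∨
        (C TC x.1 (4 + L)).testBit y.1 = true := by
    unfold NA
    simp only [Nat.testBit_lor, Bool.or_eq_true]
  rw [e, col_iff h x y L (by omega), col_iff h x y (2 + L) (by omega),
    col_iff h x y (4 + L) (by omega)]
  have := (col TC x y).2
  omega

theorem EL_iff (x y : Fin n) (L : Nat) (hL : L < 2) :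
    (EL TE x.1 L).testBit y.1 = true ↔ ∃ c : Fin 6, c.1 % 2 = L ∧ ex TE y x c := by
  have e : (EL TE x.1 L).testBit y.1 = true ↔
      (E TE x.1 L).testBit y.1 = true ∨ (E TE x.1 (2 + L)).testBit y.1 = true ∨
        (E TE x.1 (4 + L)).testBit y.1 = true := by
    unfold EL
    simp only [Nat.testBit_lor, Bool.or_eq_true]
  rw [e]
  constructor
  · rintro (h | h | h)
    · exact ⟨⟨L, by omega⟩, by simp only; omega, h⟩
    · exact ⟨⟨2 + L, by omega⟩, by simp only; omega, h⟩
    · exact ⟨⟨4 + L, by omega⟩, by simp only; omega, h⟩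
  · rintro ⟨c, hc, he⟩
    have h6 := c.2
    have h3 : c.1 = L ∨ c.1 = 2 + L ∨ c.1 = 4 + L := by omega
    unfold ex at he
    rcases h3 with h3 | h3 | h3
    · left; rw [← h3]; exact he
    · right; left; rw [← h3]; exact he
    · right; right; rw [← h3]; exact he

/-- availability of the colour `p` for a newborn of the part `w` at a host of the part `x` -/
def Av (TC TE : Nat) (w x : Fin n) (p : Fin 6) : Prop :=
  (col TC x w).1 = p.1 ∨ (col TC x w).1 = 6 + p.1 % 2 ∨ ex TE w x p

theorem AV_iff (h : okHot n TC = true) (x w : Fin n) (p : Fin 6) :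
    (AV TC TE x.1 p.1).testBit w.1 = true ↔ Av TC TE w x p := by
  unfold AV Av ex
  simp only [Nat.testBit_lor, Bool.or_eq_true]
  rw [col_iff h x w p.1 (by omega), col_iff h x w (6 + p.1 % 2) (by omega)]


theorem tri_contra {f g : Nat → Nat} {k i : Nat}
    (h : ((f k &&& g ((k + 2) % 6)) == 0 && ((f ((k + 2) % 6) &&& g k) == 0 &&
      (f ((k + 4) % 6) &&& g ((k + 4) % 6)) == 0)) = true) {t a b : Fin 6} (ht : t.1 = k)
    (ha : (f a.1).testBit i = true) (hb : (g b.1).testBit i = true) : ¬ Bad t a b := by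
  intro hbad
  rw [Bool.and_eq_true, Bool.and_eq_true] at h
  subst ht
  rcases Bad.cases3 hbad with ⟨e1, e2⟩ | ⟨e1, e2⟩ | ⟨e1, e2⟩
  · rw [e1] at ha; rw [e2] at hb
    exact land_contra ha hb h.1
  · rw [e1] at ha; rw [e2] at hb
    exact land_contra ha hb h.2.1
  · rw [e1] at ha; rw [e2] at hb
    exact land_contra ha hb h.2.2

theorem nv_contra {b c : Bool} (h : (!b || c) = true) (hb : b = true) : c = true := by
  rw [hb] at h; simpa using h

open Pool.Agent.Helper25.FP

/-- letter of the default colour -/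
noncomputable def ltf (TC : Nat) (x y : Fin n) : Bool := decide ((col TC x y).1 % 2 = 1)

/-- free pairs -/
def frf (TC : Nat) (x y : Fin n) : Prop := 6 ≤ (col TC x y).1

/-- natural values -/
noncomputable def nuf (TC : Nat) (x y : Fin n) : Fin 3 :=
  ⟨(col TC x y).1 / 2 % 3, Nat.mod_lt _ (by norm_num)⟩

theorem ltf_iff (x y : Fin n) (c : Fin 6) :
    ltf TC x y = ltr c ↔ (col TC x y).1 % 2 = c.1 % 2 := by
  unfold ltf ltr
  rw [decide_eq_decide]
  omega

/-- the natural colour as a colour -/
theorem nat_col {x y : Fin n} (h : ¬ frf TC x y) :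
    ∃ k : Fin 6, (col TC x y).1 = k.1 ∧ ltf TC x y = ltr k ∧ nuf TC x y = vl k := by
  unfold frf at h
  refine ⟨⟨(col TC x y).1, by omega⟩, rfl, rfl, ?_⟩
  unfold nuf vl
  apply Fin.ext
  simp only
  omega

theorem def_of {x y : Fin n} {c : Fin 6} :
    (ltf TC x y = ltr c ∧ (frf TC x y ∨ nuf TC x y = vl c)) ↔
      ((col TC x y).1 = c.1 ∨ (col TC x y).1 = 6 + c.1 % 2) := by
  rw [ltf_iff]
  unfold frf nuf vl
  rw [Fin.ext_iff]
  simp only
  have h8 := (col TC x y).2
  have h6 := c.2
  omega

theorem col_symm (hh : okHot n TC = true) (hs : okSym n TC = true) (x y : Fin n) :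
    col TC x y = col TC y x := by
  have h1 := (col_iff hh x y (col TC x y).1 (col TC x y).2).mpr rfl
  have h2 := nv_contra (allB_spec (allB_spec (allB_spec hs x.1 x.2) y.1 y.2) _ (col TC x y).2) h1
  exact Fin.ext ((col_iff hh y x _ (col TC x y).2).mp h2).symm


theorem ltr_mod : ∀ c p : Fin 6, ltr c = ltr p → c.1 % 2 = p.1 % 2 := by decide

theorem perm1 : ∀ a b c : Fin 3, a + b + c = 1 → a + c + b = 1 := by decide

theorem perm2 : ∀ a b c : Fin 3, a + b + c = 1 → c + a + b = 1 := by decide

theorem ltr_nat (c : Fin 6) : (ltr c = true ∧ c.1 % 2 = 1) ∨ (ltr c = false ∧ c.1 % 2 = 0) := by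
  revert c; decide

/-- the tables as a system -/
noncomputable def sys (hh : okHot n TC = true) (hs : okSym n TC = true)
    (htr : okTr n TE TR = true) (h1 : okT1 n TC = true) (h2 : okT2 n TC = true)
    (h0 : okX0 n TC TE = true) (hx : okX n TC TE TR = true) : Sys (Fin n) where
  lt := ltf TC
  fr := frf TC
  nu := nuf TC
  ex := ex TE
  lt_symm x y := by unfold ltf; rw [col_symm hh hs x y]
  fr_symm x y h := by unfold frf at *; rw [col_symm hh hs y x]; exact h
  nu_symm x y := by unfold nuf; simp only [col_symm hh hs x y]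
  T1 x y z e1 e2 n1 n2 n3 hsum := by
    obtain ⟨a, a1, a2, a3⟩ := nat_col n1
    obtain ⟨b, b1, b2, b3⟩ := nat_col n2
    obtain ⟨c, c1, c2, c3⟩ := nat_col n3
    have hb : Bad a c b := by
      rw [bad_iff, ← a2, ← b2, ← c2, ← a3, ← b3, ← c3]
      exact ⟨e1.trans e2, e2.symm, perm1 _ _ _ hsum⟩
    have hk := (col_iff hh x y a.1 (by omega)).mpr a1
    have hc := (col_iff hh x z c.1 (by omega)).mpr c1
    have hb' := (col_iff hh y z b.1 (by omega)).mpr b1
    have hT := nv_contra (allB_spec (allB_spec (allB_spec h1 x.1 x.2) y.1 y.2) a.1 a.2) hk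
    exact tri_contra (f := C TC x.1) (g := C TC y.1) hT rfl hc hb' hb
  T2 x y z hf hl := by
    obtain ⟨l1, l2⟩ := hl
    unfold frf at hf
    have h8 := (col TC x y).2
    have hL : (col TC x y).1 % 2 < 2 := Nat.mod_lt _ (by norm_num)
    have hk := (col_iff hh x y (6 + (col TC x y).1 % 2) (by omega)).mpr (by omega)
    have hT := nv_contra (allB_spec (allB_spec (allB_spec h2 x.1 x.2) y.1 y.2) _ hL) hk
    have g1 : (col TC x z).1 % 2 = (col TC x y).1 % 2 := by
      unfold ltf at l1; rw [decide_eq_decide] at l1; omega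
    have g2 : (col TC y z).1 % 2 = (col TC x y).1 % 2 := by
      unfold ltf at l2; rw [decide_eq_decide] at l2; omega
    exact land_contra ((LM_iff hh x z _ hL).mpr g1) ((LM_iff hh y z _ hL).mpr g2) hT
  X0 w x c he hd := by
    rw [def_of] at hd
    have hT := allB_spec (allB_spec h0 x.1 x.2) c.1 c.2
    have hE : (E TE x.1 c.1).testBit w.1 = true := he
    refine land_contra hE ?_ hT
    rw [Nat.testBit_lor, Bool.or_eq_true, col_iff hh x w c.1 (by omega),
      col_iff hh x w (6 + c.1 % 2) (by omega), ← col_symm hh hs w x]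
    exact hd
  X2 w x c z he l1 l2 := by
    have hE : (E TE x.1 c.1).testBit w.1 = true := he
    have hT := nv_contra (allB_spec (allB_spec (allB_spec hx x.1 x.2) w.1 w.2) c.1 c.2) hE
    rw [Bool.and_eq_true, Bool.and_eq_true, Bool.and_eq_true] at hT
    obtain ⟨⟨m1, m2⟩, m3, -⟩ := hT
    have hL : c.1 % 2 < 2 := Nat.mod_lt _ (by norm_num)
    rw [ltf_iff] at l1 l2
    have w8 := (col TC w z).2
    have x8 := (col TC x z).2
    by_cases f1 : frf TC w z
    · by_cases f2 : frf TC x z
      · exact Or.inl ⟨f1, f2⟩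
      · exfalso
        unfold frf at f1 f2
        exact land_contra ((col_iff hh w z (6 + c.1 % 2) (by omega)).mpr (by omega))
          ((NA_iff hh x z _ hL).mpr ⟨l2, by omega⟩) m1
    · by_cases f2 : frf TC x z
      · exfalso
        unfold frf at f1 f2
        exact land_contra ((NA_iff hh w z _ hL).mpr ⟨l1, by omega⟩)
          ((col_iff hh x z (6 + c.1 % 2) (by omega)).mpr (by omega)) m2
      · refine Or.inr ⟨f1, f2, fun hsum => ?_⟩
        obtain ⟨a, a1, a2, a3⟩ := nat_col f1
        obtain ⟨b, b1, b2, b3⟩ := nat_col f2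
        have hb : Bad c a b := by
          rw [bad_iff, ← a2, ← b2, ← a3, ← b3]
          exact ⟨((ltf_iff w z c).mpr l1).symm, ((ltf_iff w z c).mpr l1).trans
            ((ltf_iff x z c).mpr l2).symm, perm2 _ _ _ hsum⟩
        exact tri_contra (f := C TC w.1) (g := C TC x.1) m3 rfl
          ((col_iff hh w z a.1 (by omega)).mpr a1) ((col_iff hh x z b.1 (by omega)).mpr b1) hb
  X3 w v x c d he hd e1 l1 f1 hsum := by
    have hE : (E TE x.1 c.1).testBit w.1 = true := he
    have hT := nv_contra (allB_spec (allB_spec (allB_spec hx x.1 x.2) w.1 w.2) c.1 c.2) hE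
    rw [Bool.and_eq_true, Bool.and_eq_true, Bool.and_eq_true] at hT
    obtain ⟨-, -, m3⟩ := hT
    rw [Bool.and_eq_true] at m3
    obtain ⟨k, k1, k2, k3⟩ := nat_col f1
    have hb : Bad c k d := by
      rw [bad_iff, ← k2, ← k3]
      exact ⟨l1.symm, l1.trans e1, perm1 _ _ _ hsum⟩
    exact tri_contra (f := C TC w.1) (g := E TE x.1) m3.1 rfl
      ((col_iff hh w v k.1 (by omega)).mpr k1) hd hb
  X4 w x u c d he hd e1 l1 f1 hsum := by
    have hE : (E TE x.1 c.1).testBit w.1 = true := he
    have hT := nv_contra (allB_spec (allB_spec (allB_spec hx x.1 x.2) w.1 w.2) c.1 c.2) hE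
    rw [Bool.and_eq_true, Bool.and_eq_true, Bool.and_eq_true] at hT
    obtain ⟨-, -, m3⟩ := hT
    rw [Bool.and_eq_true] at m3
    obtain ⟨k, k1, k2, k3⟩ := nat_col f1
    have hb : Bad c k d := by
      rw [bad_iff, ← k2, ← k3]
      exact ⟨l1.symm, l1.trans e1, perm1 _ _ _ hsum⟩
    have hR : (E TR x.1 d.1).testBit u.1 = true :=
      nv_contra (allB_spec (allB_spec (allB_spec htr u.1 u.2) x.1 x.2) d.1 d.2) hd
    exact tri_contra (f := C TC w.1) (g := E TR x.1) m3.2 rfl
      ((col_iff hh w u k.1 (by omega)).mpr k1) hR hb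


/-- a number which is not contained in another one has a bit outside -/
theorem bit_outside {a b : Nat} (h : (a == (a &&& b)) = false) :
    ∃ i, a.testBit i = true ∧ b.testBit i = false := by
  by_contra hcon
  push Not at hcon
  have h1 : a = a &&& b := by
    apply Nat.eq_of_testBit_eq
    intro i
    rw [Nat.testBit_land]
    cases ha : a.testBit i with
    | false => rfl
    | true =>
      have := hcon i ha
      cases hb : b.testBit i with
      | false => exact absurd hb this
      | true => rfl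
  rw [← h1] at h
  simp at h

theorem served (hz : okSize n TC TE = true) (hh : okHot n TC = true) (hs : okSym n TC = true)
    (htr : okTr n TE TR = true) (h1 : okT1 n TC = true) (h2 : okT2 n TC = true)
    (h0 : okX0 n TC TE = true) (hx : okX n TC TE TR = true) (hd : okD n TC TE DD = true)
    (hr : okReq n TC TE DD = true) : (sys hh hs htr h1 h2 h0 hx).Served := by
  have hsz : ∀ (x : Fin n) (p : Fin 6) (i : Nat), (AV TC TE x.1 p.1).testBit i = true → i < n := by
    intro x p i hi
    have hz1 := allB_spec hz x.1 x.2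
    rw [Bool.and_eq_true] at hz1
    have a1 : C TC x.1 p.1 < 2 ^ n := by
      simpa [Nat.blt_eq] using allB_spec hz1.1 p.1 (by omega)
    have a2 : C TC x.1 (6 + p.1 % 2) < 2 ^ n := by
      simpa [Nat.blt_eq] using allB_spec hz1.1 (6 + p.1 % 2) (by omega)
    have a3 : E TE x.1 p.1 < 2 ^ n := by
      simpa [Nat.blt_eq] using allB_spec hz1.2 p.1 p.2
    have a4 : AV TC TE x.1 p.1 < 2 ^ n := Nat.or_lt_two_pow a1 (Nat.or_lt_two_pow a2 a3)
    by_contra hge
    rw [Nat.testBit_lt_two_pow (lt_of_lt_of_le a4 (Nat.pow_le_pow_right (by norm_num)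
      (by omega)))] at hi
    exact Bool.noConfusion hi
  have hav : ∀ (w x : Fin n) (p : Fin 6), (AV TC TE x.1 p.1).testBit w.1 = true →
      (sys hh hs htr h1 h2 h0 hx).Av w x p := by
    intro w x p hp
    rw [AV_iff hh] at hp
    unfold Av at hp
    rw [col_symm hh hs x w] at hp
    rcases hp with hp | hp | hp
    · exact Or.inl (def_of.mpr (Or.inl hp))
    · exact Or.inl (def_of.mpr (Or.inr hp))
    · exact Or.inr hp
  intro x y e p q hpos hbad
  have hR := allB_spec (allB_spec (allB_spec (allB_spec hr x.1 x.2) y.1 y.2) p.1 p.2) q.1 q.2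
  rw [Bool.or_eq_true] at hR
  rcases hR with hR | hR
  swap
  · exfalso
    have hE := allB_spec hR e.1 e.2
    have hP : poss TC TE x.1 y.1 e.1 = true := by
      unfold poss
      simp only [Bool.or_eq_true]
      rcases hpos with hp | hp | hp
      · have hp' := def_of.mp hp
        rw [col_iff hh x y e.1 (by omega), col_iff hh x y (6 + e.1 % 2) (by omega)]
        exact Or.inl hp'
      · exact Or.inr (Or.inl hp)
      · exact Or.inr (Or.inr hp)
    exact hbad ((badN_spec e p q).mp (nv_contra hE hP))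
  unfold serve at hR
  split_ifs at hR with hpq
  · have hpq' : p.1 % 2 = q.1 % 2 := by simpa using hpq
    rw [Bool.or_eq_true] at hR
    rcases hR with hR | hR
    · rw [Bool.not_eq_true'] at hR
      obtain ⟨i, i1, i2⟩ := bit_outside hR
      rw [Nat.testBit_land, Bool.and_eq_true] at i1
      have hi := hsz x p i i1.1
      refine ⟨⟨i, hi⟩, hav ⟨i, hi⟩ x p i1.1, hav ⟨i, hi⟩ y q i1.2, ?_⟩
      intro _ ex1 ex2
      exfalso
      rw [Nat.testBit_land] at i2
      have e1 : (E TE x.1 p.1).testBit i = true := ex1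
      have e2 : (E TE y.1 q.1).testBit i = true := ex2
      rw [e1, e2] at i2
      exact absurd i2 (by decide)
    · obtain ⟨w, hw, hw2⟩ := anyB_spec hR
      rw [Bool.and_eq_true, Nat.testBit_land, Nat.testBit_land, Bool.and_eq_true,
        Bool.and_eq_true] at hw2
      obtain ⟨⟨⟨w1, w2⟩, w3⟩, w4⟩ := hw2
      refine ⟨⟨w, hw⟩, Or.inr w1, Or.inr w2, ?_⟩
      intro hl _ _
      have hL : p.1 % 2 < 2 := Nat.mod_lt _ (by norm_num)
      have hD := nv_contra (allB_spec (allB_spec hd (p.1 % 2) hL) w hw) w3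
      have key : ∀ (u v : Fin n), (sys hh hs htr h1 h2 h0 hx).fr u v →
          (sys hh hs htr h1 h2 h0 hx).lt u v = ltr p → (col TC u v).1 = 6 + p.1 % 2 := by
        intro u v f1 l1
        have l2 := (ltf_iff u v p).mp l1
        have f2 : 6 ≤ (col TC u v).1 := f1
        have := (col TC u v).2
        omega
      constructor
      · intro z z2 c f1 l1 f2 l2 hc he
        have g1 := (col_iff hh ⟨w, hw⟩ z (6 + p.1 % 2) (by omega)).mpr (key _ _ f1 l1)
        have g2 := (col_iff hh ⟨w, hw⟩ z2 (6 + p.1 % 2) (by omega)).mpr (key _ _ f2 l2)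
        have hD2 := nv_contra (allB_spec hD z.1 z.2) g1
        refine land_contra ((EL_iff z z2 (p.1 % 2) hL).mpr ⟨c, ?_, he⟩) g2 hD2
        exact ltr_mod c p hc
      · intro v f1 l1 hcon
        have f2 := (sys hh hs htr h1 h2 h0 hx).fr_symm _ _ f1
        have l2 := ((sys hh hs htr h1 h2 h0 hx).lt_symm ⟨w, hw⟩ v).trans l1
        have g1 := (col_iff hh ⟨w, hw⟩ v (6 + p.1 % 2) (by omega)).mpr (key _ _ f2 l2)
        have g2 : (LM TC x.1 (p.1 % 2)).testBit v.1 = true := by
          rw [LM_iff hh x v _ hL]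
          exact (ltf_iff x v p).mp (((sys hh hs htr h1 h2 h0 hx).lt_symm x v).trans hcon.1)
        have g3 : (LM TC y.1 (p.1 % 2)).testBit v.1 = true := by
          rw [LM_iff hh y v _ hL]
          exact (ltf_iff y v p).mp (((sys hh hs htr h1 h2 h0 hx).lt_symm y v).trans hcon.2)
        refine land_contra g1 ?_ w4
        rw [Nat.testBit_land, g2, g3]; rfl
  · have hpq' : ¬ p.1 % 2 = q.1 % 2 := by simpa using hpq
    rw [Bool.not_eq_true'] at hR
    have hne : (AV TC TE x.1 p.1 &&& AV TC TE y.1 q.1) ≠ 0 := by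
      intro h; rw [h] at hR; exact absurd hR (by decide)
    obtain ⟨i, hi⟩ := Nat.exists_testBit_of_ne_zero hne
    rw [Nat.testBit_land, Bool.and_eq_true] at hi
    have hin := hsz x p i hi.1
    refine ⟨⟨i, hin⟩, hav ⟨i, hin⟩ x p hi.1, hav ⟨i, hin⟩ y q hi.2, ?_⟩
    intro hl
    exact absurd (ltr_mod p q hl) hpq'

open Pool.Agent.RA6 in
/-- **A table that passes the check gives a representation.** -/
theorem rep_of_fx (hn : 0 < n) (h : okAll n TC TE TR DD = true) :
    ∃ r : Set Atom → Set (ℕ × ℕ), IsRepresentation ℕ r := by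
  unfold okAll at h
  simp only [Bool.and_eq_true] at h
  obtain ⟨hz, hh, hs, htr, h1, h2, h0, hx, hd, hr⟩ := h
  have : Nonempty (Fin n) := ⟨⟨0, hn⟩⟩
  exact rep_of_sys _ (served hz hh hs htr h1 h2 h0 hx hd hr)

end spec

end Pool.Agent.Helper7.Fx
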