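import Mathlib
import Pool.Agent.Helper7.RAS.Fx7
import Pool.Agent.RA6.FOFrame99

/-!
Finite tables for the age ordered scheme with free pairs over the types `ℚ × Fin n`: everything
depends on the parts and on the comparison of the levels.
-/

namespace Pool.Agent.Helper7.Lv

open Pool.Agent.Helper25.RA Pool.Agent.Helper7.RAS Pool.Agent.Helper7.Fx Pool.Agent.RA6

/-- comparison of two levels -/
def cmp (a b : ℚ) : Nat := if a < b then 0 else if a = b then 1 else 2

/-- the patterns of three levels `a, b, c`: comparisons of `a b`, `a c`, `b c` -/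
def valid (r s t : Nat) : Bool :=
  (r == 0 && (t == 0 && s == 0)) || ((r == 0 && (t == 1 && s == 0)) || ((r == 0 && t == 2) ||
  ((r == 1 && s == t) || ((r == 2 && t == 0) || ((r == 2 && (t == 1 && s == 2)) ||
  (r == 2 && (t == 2 && s == 2)))))))

theorem cmp_lt (a b : ℚ) : cmp a b < 3 := by
  unfold cmp; split_ifs <;> omega

theorem cmp_valid (a b c : ℚ) : valid (cmp a b) (cmp a c) (cmp b c) = true := by
  unfold cmp
  split_ifs with h1 h2 h3 h4 h5 h6 h7 h8 h9 h10 h11 h12 h13 h14 <;>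
    first
      | rfl
      | (exfalso; linarith)
      | (exfalso; subst_vars; simp_all; done)
      | (exfalso; rcases lt_trichotomy a b with h | h | h <;> rcases lt_trichotomy b c with g | g | g <;>
          rcases lt_trichotomy a c with f | f | f <;> simp_all <;> linarith)

theorem cmp_swap (a b : ℚ) : cmp b a = 2 - cmp a b := by
  unfold cmp
  rcases lt_trichotomy a b with h | h | h
  · rw [if_neg (not_lt.mpr h.le), if_neg h.ne', if_pos h]
  · subst h; simp
  · rw [if_pos h, if_neg (not_lt.mpr h.le), if_neg h.ne']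

/-- a level in a given position -/
theorem realize (a b : ℚ) (s t : Nat) (hs : s < 3) (ht : t < 3)
    (h : valid s t (cmp a b) = true) : ∃ c : ℚ, cmp c a = s ∧ cmp c b = t := by
  have hlt : ∀ x y : ℚ, x < y → cmp x y = 0 := fun x y h => by unfold cmp; rw [if_pos h]
  have heq : ∀ x : ℚ, cmp x x = 1 := fun x => by unfold cmp; simp
  have hgt : ∀ x y : ℚ, y < x → cmp x y = 2 := fun x y h => by
    unfold cmp; rw [if_neg (not_lt.mpr h.le), if_neg h.ne']
  rcases lt_trichotomy a b with g | g | g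
  · rw [hlt a b g] at h
    have h0 : (s = 0 ∧ t = 0) ∨ (s = 1 ∧ t = 0) ∨ (s = 2 ∧ t = 0) ∨ (s = 2 ∧ t = 1) ∨
        (s = 2 ∧ t = 2) := by
      interval_cases s <;> interval_cases t <;> first | (exfalso; revert h; decide) | simp
    rcases h0 with ⟨rfl, rfl⟩ | ⟨rfl, rfl⟩ | ⟨rfl, rfl⟩ | ⟨rfl, rfl⟩ | ⟨rfl, rfl⟩
    · exact ⟨a - 1, hlt _ _ (by linarith), hlt _ _ (by linarith)⟩
    · exact ⟨a, heq a, hlt _ _ g⟩
    · exact ⟨(a + b) / 2, hgt _ _ (by linarith), hlt _ _ (by linarith)⟩
    · exact ⟨b, hgt _ _ g, heq b⟩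
    · exact ⟨b + 1, hgt _ _ (by linarith), hgt _ _ (by linarith)⟩
  · subst g
    rw [heq a] at h
    have h0 : (s = 0 ∧ t = 0) ∨ (s = 1 ∧ t = 1) ∨ (s = 2 ∧ t = 2) := by
      interval_cases s <;> interval_cases t <;> first | (exfalso; revert h; decide) | simp
    rcases h0 with ⟨rfl, rfl⟩ | ⟨rfl, rfl⟩ | ⟨rfl, rfl⟩
    · exact ⟨a - 1, hlt _ _ (by linarith), hlt _ _ (by linarith)⟩
    · exact ⟨a, heq a, heq a⟩
    · exact ⟨a + 1, hgt _ _ (by linarith), hgt _ _ (by linarith)⟩
  · rw [hgt a b g] at h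
    have h0 : (s = 0 ∧ t = 0) ∨ (s = 0 ∧ t = 1) ∨ (s = 0 ∧ t = 2) ∨ (s = 1 ∧ t = 2) ∨
        (s = 2 ∧ t = 2) := by
      interval_cases s <;> interval_cases t <;> first | (exfalso; revert h; decide) | simp
    rcases h0 with ⟨rfl, rfl⟩ | ⟨rfl, rfl⟩ | ⟨rfl, rfl⟩ | ⟨rfl, rfl⟩ | ⟨rfl, rfl⟩
    · exact ⟨b - 1, hlt _ _ (by linarith), hlt _ _ (by linarith)⟩
    · exact ⟨b, hlt _ _ g, heq b⟩
    · exact ⟨(a + b) / 2, hlt _ _ (by linarith), hgt _ _ (by linarith)⟩
    · exact ⟨a, heq a, hgt _ _ g⟩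
    · exact ⟨a + 1, hgt _ _ (by linarith), hgt _ _ (by linarith)⟩


/-- the three conjunctions against forbidden triples -/
def tri (f g : Nat → Nat) (k : Nat) : Bool :=
  (f k &&& g ((k + 2) % 6)) == 0 && ((f ((k + 2) % 6) &&& g k) == 0 &&
    (f ((k + 4) % 6) &&& g ((k + 4) % 6)) == 0)

/-- all valid patterns -/
def allP (p : Nat → Nat → Nat → Bool) : Bool :=
  allB 3 fun r => allB 3 fun s => allB 3 fun t => !(valid r s t) || p r s t

theorem allP_spec {p : Nat → Nat → Nat → Bool} (h : allP p = true) (a b c : ℚ) :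
    p (cmp a b) (cmp a c) (cmp b c) = true :=
  nv_contra (allB_spec (allB_spec (allB_spec h _ (cmp_lt a b)) _ (cmp_lt a c)) _ (cmp_lt b c))
    (cmp_valid a b c)

/-- possible colours (younger `x`, bits: older) -/
def PR (n TA TR r x d : Nat) : Nat :=
  C TA (n * r + x) d ||| (C TA (n * r + x) (6 + d % 2) ||| E TR (n * r + x) d)

/-- possible colours (older `x`, bits: younger) -/
def PC (n TB TE r x d : Nat) : Nat :=
  C TB (n * r + x) d ||| (C TB (n * r + x) (6 + d % 2) ||| E TE (n * r + x) d)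

/-- default colours (older `x`, bits: younger) -/
def DC (n TB r x d : Nat) : Nat := C TB (n * r + x) d ||| C TB (n * r + x) (6 + d % 2)

/-- `TB` is the transpose of `TA` -/
def okTA (n TA TB : Nat) : Bool :=
  allB 3 fun r => allB n fun x => allB n fun y => allB 8 fun k =>
    !((C TA (n * r + x) k).testBit y) || (C TB (n * r + y) k).testBit x

/-- `TR` contains the transpose of `TE` -/
def okTE (n TE TR : Nat) : Bool :=
  allB 3 fun r => allB n fun x => allB n fun y => allB 6 fun k =>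
    !((E TE (n * r + y) k).testBit x) || (E TR (n * r + x) k).testBit y

/-- one default colour -/
def okHA (n TA : Nat) : Bool :=
  allB 3 fun r => allB n fun x => (allB n fun y => anyB 8 fun k => (C TA (n * r + x) k).testBit y)

/-- not two default colours -/
def okHB (n TB : Nat) : Bool :=
  allB 3 fun r => allB n fun x =>
    (allB 8 fun k => allB 8 fun j => k == j || (C TB (n * r + x) k &&& C TB (n * r + x) j) == 0)

/-- sizes -/
def okZ (n TB TE : Nat) : Bool :=
  allB 3 fun r => allB n fun x => (allB 8 fun k => Nat.blt (C TB (n * r + x) k) (2 ^ n)) &&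
    (allB 6 fun k => Nat.blt (E TE (n * r + x) k) (2 ^ n))

/-- condition 1 -/
def okH1 (n TA : Nat) : Bool :=
  allP fun r s t => allB n fun i => allB n fun j => allB 8 fun k =>
    !((C TA (n * r + i) k).testBit j) ||
      (if k < 6 then
        tri (C TA (n * s + i)) (C TA (n * t + j)) k &&
          ((C TA (n * s + i) (6 + k % 2) &&& LM TA (n * t + j) (k % 2)) == 0 &&
            (LM TA (n * s + i) (k % 2) &&& C TA (n * t + j) (6 + k % 2)) == 0)
      else (LM TA (n * s + i) (k % 2) &&& LM TA (n * t + j) (k % 2)) == 0)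

/-- condition 2 -/
def okH2 (n TB TE : Nat) : Bool :=
  allP fun r s t => allB n fun z => allB n fun u => allB 6 fun c =>
    !((E TE (n * t + u) c).testBit z) ||
      ((C TB (n * r + z) (6 + c % 2) &&& NA TB (n * s + u) (c % 2)) == 0 &&
        ((NA TB (n * r + z) (c % 2) &&& C TB (n * s + u) (6 + c % 2)) == 0 &&
          tri (C TB (n * r + z)) (C TB (n * s + u)) c))

/-- condition 3 -/
def okH3 (n TA TB TE TR : Nat) : Bool :=
  allP fun r s t => allB n fun w => allB n fun z => allB 6 fun c =>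
    !((E TE (n * r + z) c).testBit w) ||
      tri (C TA (n * s + w)) (fun d => PR n TA TR t z d ||| PC n TB TE (2 - t) z d) c

/-- no exceptional pair among the parts free to the parts of `DD` -/
def okDD (n TA TE DD : Nat) : Bool :=
  allB 2 fun L => allB n fun w => !((cw DD L).testBit w) ||
    allP fun r s t => allB n fun z => !((C TA (n * r + w) (6 + L)).testBit z) ||
      (EL TE (n * (2 - t) + z) L &&& C TA (n * s + w) (6 + L)) == 0

/-- no viewer free to `w` and joined to `x` and `y` -/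
def d2 (n TB s t r w x y L : Nat) : Bool :=
  allB 3 fun a => allB 3 fun b => allB 3 fun c =>
    !(valid a b s && (valid a c t && valid b c r)) ||
      (C TB (n * a + w) (6 + L) &&& (LM TB (n * b + x) L &&& LM TB (n * c + y) L)) == 0

/-- service from the position `s, t` -/
def srv (n TB TE DD r s t x y p q : Nat) : Bool :=
  if p % 2 == q % 2 then
    (!(((PC n TB TE s x p &&& PC n TB TE t y q) &&&
      (DC n TB s x p ||| DC n TB t y q)) == 0)) ||
    (anyB n fun w => ((PC n TB TE s x p &&& PC n TB TE t y q) &&& cw DD (p % 2)).testBit w &&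
      d2 n TB s t r w x y (p % 2))
  else !((PC n TB TE s x p &&& PC n TB TE t y q) == 0)

/-- service -/
def serve (n TB TE DD r x y p q : Nat) : Bool :=
  anyB 3 fun s => anyB 3 fun t => valid s t r && srv n TB TE DD r s t x y p q

/-- possible colours of a pair -/
def poss (n TB TE r x y e : Nat) : Bool :=
  (PC n TB TE r y e).testBit x || (PC n TB TE (2 - r) x e).testBit y

/-- all demands -/
def okR (n TB TE DD : Nat) : Bool :=
  allB 3 fun r => allB n fun x => allB n fun y => allB 6 fun p => allB 6 fun q =>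
    serve n TB TE DD r x y p q || (allB 6 fun e => !(poss n TB TE r x y e) || badN e p q)

/-- all checks -/
def okAll (n TA TB TE TR DD : Nat) : Bool :=
  okTA n TA TB && (okTE n TE TR && (okHA n TA && (okHB n TB && (okZ n TB TE && (okH1 n TA &&
    (okH2 n TB TE && (okH3 n TA TB TE TR && (okDD n TA TE DD && okR n TB TE DD))))))))

section spec

variable {n TA TB TE TR DD : Nat}

open Classical in
/-- the default colour of a pair -/
noncomputable def col (n TA : Nat) (r : Nat) (x y : Fin n) : Fin 8 :=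
  if h : ∃ k : Fin 8, (C TA (n * r + x.1) k.1).testBit y.1 = true then h.choose else 0

theorem colA (hta : okTA n TA TB = true) (ha : okHA n TA = true) (hb : okHB n TB = true)
    (r : Nat) (hr : r < 3) (x y : Fin n) (k : Nat) (hk : k < 8) :
    ((C TA (n * r + x.1) k).testBit y.1 = true ↔ (col n TA r x y).1 = k) ∧
      ((C TB (n * r + y.1) k).testBit x.1 = true ↔ (col n TA r x y).1 = k) := by
  have hex := anyB8 (allB_spec (allB_spec (allB_spec ha r hr) x.1 x.2) y.1 y.2)
  have hc : (C TA (n * r + x.1) (col n TA r x y).1).testBit y.1 = true := by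
    unfold col
    rw [dif_pos hex]
    exact hex.choose_spec
  have hT : ∀ j, j < 8 → (C TA (n * r + x.1) j).testBit y.1 = true →
      (C TB (n * r + y.1) j).testBit x.1 = true := fun j hj h =>
    nv_contra (allB_spec (allB_spec (allB_spec (allB_spec hta r hr) x.1 x.2) y.1 y.2) j hj) h
  have hc2 := hT _ (col n TA r x y).2 hc
  have key : (C TB (n * r + y.1) k).testBit x.1 = true → (col n TA r x y).1 = k := by
    intro hb1
    have h2 := allB_spec (allB_spec (allB_spec (allB_spec hb r hr) y.1 y.2)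
      (col n TA r x y).1 (col n TA r x y).2) k hk
    rw [Bool.or_eq_true] at h2
    rcases h2 with h2 | h2
    · exact by simpa using h2
    · exact absurd (land_contra hc2 hb1 h2) id
  refine ⟨⟨fun h => key (hT k hk h), ?_⟩, ⟨key, ?_⟩⟩
  · rintro rfl; exact hc
  · rintro rfl; exact hc2

theorem LM_bit (T j i L : Nat) : (LM T j L).testBit i = true ↔
    (C T j L).testBit i = true ∨ (C T j (2 + L)).testBit i = true ∨
      (C T j (4 + L)).testBit i = true ∨ (C T j (6 + L)).testBit i = true := by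
  unfold LM
  simp only [Nat.testBit_lor, Bool.or_eq_true]

theorem NA_bit (T j i L : Nat) : (NA T j L).testBit i = true ↔
    (C T j L).testBit i = true ∨ (C T j (2 + L)).testBit i = true ∨
      (C T j (4 + L)).testBit i = true := by
  unfold NA
  simp only [Nat.testBit_lor, Bool.or_eq_true]


/-- the number of a colour -/
def code (a : LV) : Fin 6 := ⟨2 * a.2.val + (if a.1 then 1 else 0), by
  have := ZMod.val_lt a.2
  split <;> omega⟩

theorem code_mod (a : LV) : (code a).1 % 2 = if a.1 then 1 else 0 := by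
  revert a; decide

theorem code_bad : ∀ a b c : LV, BadLV a b c → Bad (code a) (code b) (code c) := by decide

theorem code_bad' : ∀ a b c : LV, Bad (code a) (code b) (code c) → BadLV a b c := by decide

theorem code_lt : ∀ a b : LV, (code a).1 % 2 = (code b).1 % 2 ↔ a.1 = b.1 := by decide

/-- letter, from the number -/
def lto (k : Nat) : Bool := decide (k % 2 = 1)

theorem code_nat : ∀ k : Fin 6, code (lto k.1, ((k.1 / 2 : ℕ) : ZMod 3)) = k := by decide

theorem code_inj : ∀ a b : LV, code a = code b → a = b := by decide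

/-- the tables -/
noncomputable def tab (n TA TE : Nat) : FOTab (ℚ × Fin n) where
  lt W X := lto (col n TA (cmp W.1 X.1) W.2 X.2).1
  fr W X := decide (6 ≤ (col n TA (cmp W.1 X.1) W.2 X.2).1)
  nu W X := (((col n TA (cmp W.1 X.1) W.2 X.2).1 / 2 : ℕ) : ZMod 3)
  ex W X L v := (E TE (n * cmp W.1 X.1 + X.2.1) (code (L, v)).1).testBit W.2.1

theorem lto_iff (k : Nat) (a : LV) : lto k = a.1 ↔ k % 2 = (code a).1 % 2 := by
  rw [code_mod]
  unfold lto
  cases ha : a.1 <;> simp

theorem lto_eq (k j : Nat) : lto k = lto j ↔ k % 2 = j % 2 := by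
  unfold lto
  rw [decide_eq_decide]
  omega

/-- default colours -/
theorem dft_iff (W X : ℚ × Fin n) (a : LV) : (tab n TA TE).Dft W X a ↔
    ((col n TA (cmp W.1 X.1) W.2 X.2).1 = (code a).1 ∨
      (col n TA (cmp W.1 X.1) W.2 X.2).1 = 6 + (code a).1 % 2) := by
  unfold FOTab.Dft
  have h8 := (col n TA (cmp W.1 X.1) W.2 X.2).2
  have h6 := (code a).2
  change (lto _ = a.1 ∧ (decide (6 ≤ _) = true ∨ _)) ↔ _
  rw [lto_iff, decide_eq_true_eq]
  generalize hk : (col n TA (cmp W.1 X.1) W.2 X.2).1 = k at *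
  constructor
  · rintro ⟨h1, h2 | h2⟩
    · right; omega
    · by_cases h7 : 6 ≤ k
      · right; omega
      · left
        have h3 : code (lto k, ((k / 2 : ℕ) : ZMod 3)) = ⟨k, by omega⟩ := code_nat ⟨k, by omega⟩
        have h4 : a = (lto k, ((k / 2 : ℕ) : ZMod 3)) := by
          refine Prod.ext ?_ ?_
          · exact ((lto_iff k a).mpr h1).symm
          · rw [← h2]; simp only [tab, hk]
        rw [h4, h3]
  · rintro (h | h)
    · refine ⟨by omega, Or.inr ?_⟩
      have h3 := code_nat (code a)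
      have h4 := code_inj _ _ h3
      have h5 : ((((code a).1 / 2 : ℕ) : ZMod 3)) = a.2 := by
        have := congrArg Prod.snd h4
        exact this
      simp only [tab, hk]
      rw [h]; exact h5
    · exact ⟨by omega, Or.inl (by omega)⟩

theorem mod_lt2 (k : Nat) : k % 2 < 2 := Nat.mod_lt _ (by norm_num)


theorem tri_no {f g : Nat → Nat} {k i : Nat} (h : tri f g k = true) {x a b : Fin 6}
    (hx : x.1 = k) (ha : (f a.1).testBit i = true) (hb : (g b.1).testBit i = true) :
    ¬ Bad x a b := tri_contra (by unfold tri at h; exact h) hx ha hb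

theorem natcode (k : Nat) (hk : k < 6) : (code (lto k, ((k / 2 : ℕ) : ZMod 3))).1 = k :=
  congrArg Fin.val (code_nat ⟨k, hk⟩)

theorem tab_h1 (hta : okTA n TA TB = true) (ha : okHA n TA = true) (hb : okHB n TB = true)
    (h1 : okH1 n TA = true) : ∀ W Z U, (tab n TA TE).lt W Z = (tab n TA TE).lt W U →
    (tab n TA TE).lt Z U = (tab n TA TE).lt W U →
    (tab n TA TE).fr W Z = false ∧ (tab n TA TE).fr W U = false ∧
      (tab n TA TE).fr Z U = false ∧
      (tab n TA TE).nu W Z + (tab n TA TE).nu W U + (tab n TA TE).nu Z U ≠ 1 := by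
  intro W Z U e1 e2
  have hr := cmp_lt W.1 Z.1
  have hs := cmp_lt W.1 U.1
  have ht := cmp_lt Z.1 U.1
  have hP := allP_spec h1 W.1 Z.1 U.1
  simp only [tab] at e1 e2 ⊢
  rw [lto_eq] at e1 e2
  have A1 := fun k hk => (colA hta ha hb _ hr W.2 Z.2 k hk).1
  have A2 := fun k hk => (colA hta ha hb _ hs W.2 U.2 k hk).1
  have A3 := fun k hk => (colA hta ha hb _ ht Z.2 U.2 k hk).1
  have a8 := (col n TA (cmp W.1 Z.1) W.2 Z.2).2
  have b8 := (col n TA (cmp W.1 U.1) W.2 U.2).2
  have c8 := (col n TA (cmp Z.1 U.1) Z.2 U.2).2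
  have hk := nv_contra (allB_spec (allB_spec (allB_spec hP W.2.1 W.2.2) Z.2.1 Z.2.2) _ a8)
    ((A1 _ a8).mpr rfl)
  generalize (col n TA (cmp W.1 Z.1) W.2 Z.2).1 = a at *
  generalize (col n TA (cmp W.1 U.1) W.2 U.2).1 = b at *
  generalize (col n TA (cmp Z.1 U.1) Z.2 U.2).1 = c at *
  have b1 := (A2 b b8).mpr rfl
  have c1 := (A3 c c8).mpr rfl
  have lb : (LM TA (n * cmp W.1 U.1 + W.2.1) (a % 2)).testBit U.2.1 = true := by
    rw [LM_bit]
    have : b = a % 2 ∨ b = 2 + a % 2 ∨ b = 4 + a % 2 ∨ b = 6 + a % 2 := by omega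
    rcases this with h | h | h | h
    · left; rw [← h]; exact b1
    · right; left; rw [← h]; exact b1
    · right; right; left; rw [← h]; exact b1
    · right; right; right; rw [← h]; exact b1
  have lc : (LM TA (n * cmp Z.1 U.1 + Z.2.1) (a % 2)).testBit U.2.1 = true := by
    rw [LM_bit]
    have : c = a % 2 ∨ c = 2 + a % 2 ∨ c = 4 + a % 2 ∨ c = 6 + a % 2 := by omega
    rcases this with h | h | h | h
    · left; rw [← h]; exact c1
    · right; left; rw [← h]; exact c1
    · right; right; left; rw [← h]; exact c1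
    · right; right; right; rw [← h]; exact c1
  split_ifs at hk with h6
  · rw [Bool.and_eq_true, Bool.and_eq_true] at hk
    obtain ⟨k1, k2, k3⟩ := hk
    have b6 : b < 6 := by
      by_contra hge
      have e : b = 6 + a % 2 := by omega
      rw [e] at b1
      exact land_contra b1 lc k2
    have c6 : c < 6 := by
      by_contra hge
      have e : c = 6 + a % 2 := by omega
      rw [e] at c1
      exact land_contra lb c1 k3
    refine ⟨decide_eq_false (by omega), decide_eq_false (by omega), decide_eq_false (by omega), ?_⟩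
    intro hsum
    have hbad : BadLV (lto a, ((a / 2 : ℕ) : ZMod 3)) (lto b, ((b / 2 : ℕ) : ZMod 3))
        (lto c, ((c / 2 : ℕ) : ZMod 3)) :=
      ⟨(lto_eq a b).mpr (by omega), (lto_eq b c).mpr (by omega), hsum⟩
    refine tri_no (i := U.2.1) k1 (natcode a h6) ?_ ?_ (code_bad _ _ _ hbad)
    · rw [natcode b b6]; exact b1
    · rw [natcode c c6]; exact c1
  · exact absurd (land_contra lb lc hk) id

theorem tab_h2 (hta : okTA n TA TB = true) (ha : okHA n TA = true) (hb : okHB n TB = true)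
    (h2 : okH2 n TB TE = true) : ∀ W Z U a, (tab n TA TE).lt W Z = (tab n TA TE).lt W U →
    (tab n TA TE).ex Z U ((tab n TA TE).lt W U) a = true →
    ((tab n TA TE).fr W Z = true ∧ (tab n TA TE).fr W U = true) ∨
      ((tab n TA TE).fr W Z = false ∧ (tab n TA TE).fr W U = false ∧
        (tab n TA TE).nu W Z + (tab n TA TE).nu W U + a ≠ 1) := by
  intro W Z U v e1 e2
  have hr := cmp_lt W.1 Z.1
  have hs := cmp_lt W.1 U.1
  have hP := allP_spec h2 W.1 Z.1 U.1
  simp only [tab] at e1 e2 ⊢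
  rw [lto_eq] at e1
  have A1 := fun k hk => (colA hta ha hb _ hr W.2 Z.2 k hk).2
  have A2 := fun k hk => (colA hta ha hb _ hs W.2 U.2 k hk).2
  have a8 := (col n TA (cmp W.1 Z.1) W.2 Z.2).2
  have b8 := (col n TA (cmp W.1 U.1) W.2 U.2).2
  generalize (col n TA (cmp W.1 Z.1) W.2 Z.2).1 = a at *
  generalize (col n TA (cmp W.1 U.1) W.2 U.2).1 = b at *
  have hc := (code (lto b, v)).2
  have hcm : (code (lto b, v)).1 % 2 = b % 2 := ((lto_iff b (lto b, v)).mp rfl).symm
  have hk := nv_contra (allB_spec (allB_spec (allB_spec hP Z.2.1 Z.2.2) U.2.1 U.2.2) _ hc) e2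
  rw [Bool.and_eq_true, Bool.and_eq_true, hcm] at hk
  obtain ⟨k1, k2, k3⟩ := hk
  have a1 := (A1 a a8).mpr rfl
  have b1 := (A2 b b8).mpr rfl
  by_cases h6 : 6 ≤ a
  · by_cases g6 : 6 ≤ b
    · left; exact ⟨decide_eq_true h6, decide_eq_true g6⟩
    · exfalso
      have ea : a = 6 + b % 2 := by omega
      rw [ea] at a1
      refine land_contra a1 ((NA_bit _ _ _ _).mpr ?_) k1
      have : b = b % 2 ∨ b = 2 + b % 2 ∨ b = 4 + b % 2 := by omega
      rcases this with h | h | h
      · left; rw [← h]; exact b1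
      · right; left; rw [← h]; exact b1
      · right; right; rw [← h]; exact b1
  · by_cases g6 : 6 ≤ b
    · exfalso
      have eb : b = 6 + b % 2 := by omega
      have b1' : (C TB (n * cmp W.1 U.1 + U.2.1) (6 + b % 2)).testBit W.2.1 = true := by
        rw [← eb]; exact b1
      refine land_contra ((NA_bit _ _ _ _).mpr ?_) b1' k2
      have : a = b % 2 ∨ a = 2 + b % 2 ∨ a = 4 + b % 2 := by omega
      rcases this with h | h | h
      · left; rw [← h]; exact a1
      · right; left; rw [← h]; exact a1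
      · right; right; rw [← h]; exact a1
    · right
      refine ⟨decide_eq_false h6, decide_eq_false g6, fun hsum => ?_⟩
      have hbad : BadLV (lto b, v) (lto a, ((a / 2 : ℕ) : ZMod 3))
          (lto b, ((b / 2 : ℕ) : ZMod 3)) := by
        refine ⟨(lto_eq b a).mpr (by omega), (lto_eq a b).mpr (by omega), ?_⟩
        rw [← hsum]; ring
      refine tri_no (i := W.2.1) k3 rfl ?_ ?_ (code_bad _ _ _ hbad)
      · rw [natcode a (by omega)]; exact a1
      · rw [natcode b (by omega)]; exact b1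


theorem dc_iff (hta : okTA n TA TB = true) (ha : okHA n TA = true) (hb : okHB n TB = true)
    (W X : ℚ × Fin n) (a : LV) :
    (DC n TB (cmp W.1 X.1) X.2.1 (code a).1).testBit W.2.1 = true ↔
      (tab n TA TE).Dft W X a := by
  have A := fun k hk => (colA hta ha hb _ (cmp_lt W.1 X.1) W.2 X.2 k hk).2
  have h6 := (code a).2
  rw [dft_iff]
  unfold DC
  rw [Nat.testBit_lor, Bool.or_eq_true, A _ (by omega), A _ (by omega)]

theorem pc_iff (hta : okTA n TA TB = true) (ha : okHA n TA = true) (hb : okHB n TB = true)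
    (W X : ℚ × Fin n) (a : LV) :
    (PC n TB TE (cmp W.1 X.1) X.2.1 (code a).1).testBit W.2.1 = true ↔
      (tab n TA TE).Poss W X a := by
  have h := dc_iff (TE := TE) hta ha hb W X a
  unfold DC at h
  rw [Nat.testBit_lor, Bool.or_eq_true] at h
  unfold PC FOTab.Poss
  rw [Nat.testBit_lor, Nat.testBit_lor, Bool.or_eq_true, Bool.or_eq_true, ← or_assoc, h]
  rfl

theorem tab_h3 (hta : okTA n TA TB = true) (hte : okTE n TE TR = true) (ha : okHA n TA = true)
    (hb : okHB n TB = true) (h3 : okH3 n TA TB TE TR = true) : ∀ W Z U L a b,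
    (tab n TA TE).ex W Z L a = true → (tab n TA TE).lt W U = L → (tab n TA TE).fr W U = false →
    ((tab n TA TE).Poss Z U (L, b) ∨ (tab n TA TE).Poss U Z (L, b)) →
    a + (tab n TA TE).nu W U + b ≠ 1 := by
  intro W Z U L a b he hl hf hp hsum
  have hs := cmp_lt W.1 U.1
  have ht := cmp_lt Z.1 U.1
  have hP := allP_spec h3 W.1 Z.1 U.1
  have hk := nv_contra (allB_spec (allB_spec (allB_spec hP W.2.1 W.2.2) Z.2.1 Z.2.2) _
    (code (L, a)).2) he
  have A2 := fun k hk => (colA hta ha hb _ hs W.2 U.2 k hk).1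
  have A3 := fun k hk => (colA hta ha hb _ ht Z.2 U.2 k hk).1
  have hbit : (PR n TA TR (cmp Z.1 U.1) Z.2.1 (code (L, b)).1 |||
      PC n TB TE (2 - cmp Z.1 U.1) Z.2.1 (code (L, b)).1).testBit U.2.1 = true := by
    rw [Nat.testBit_lor, Bool.or_eq_true]
    rcases hp with hp | hp
    · left
      unfold PR
      rw [Nat.testBit_lor, Nat.testBit_lor, Bool.or_eq_true, Bool.or_eq_true]
      rcases hp with hp | hp
      · rw [dft_iff] at hp
        have h6 := (code (L, b)).2
        rcases hp with hp | hp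
        · left; exact (A3 _ (by omega)).mpr hp
        · right; left; exact (A3 _ (by omega)).mpr hp
      · right; right
        exact nv_contra (allB_spec (allB_spec (allB_spec (allB_spec hte _ ht) Z.2.1 Z.2.2)
          U.2.1 U.2.2) _ (code (L, b)).2) hp
    · right
      rw [← cmp_swap]
      exact (pc_iff hta ha hb U Z (L, b)).mpr hp
  simp only [tab] at hl hf hsum
  have b8 := (col n TA (cmp W.1 U.1) W.2 U.2).2
  have b1 := (A2 _ b8).mpr rfl
  generalize (col n TA (cmp W.1 U.1) W.2 U.2).1 = k at *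
  have k6 : k < 6 := by
    by_contra hge
    rw [decide_eq_true (by omega : 6 ≤ k)] at hf
    exact Bool.noConfusion hf
  have hbad : BadLV (L, a) (lto k, ((k / 2 : ℕ) : ZMod 3)) (L, b) := ⟨hl.symm, hl, hsum⟩
  refine tri_no (i := U.2.1) hk rfl ?_ hbit (code_bad _ _ _ hbad)
  rw [natcode k k6]; exact b1

theorem code_if (a : LV) : (code a).1 % 2 < 2 := mod_lt2 _

theorem LMB (hta : okTA n TA TB = true) (ha : okHA n TA = true) (hb : okHB n TB = true)
    (W X : ℚ × Fin n) (L : Nat) (hL : L < 2)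
    (h : (col n TA (cmp W.1 X.1) W.2 X.2).1 % 2 = L) :
    (LM TB (n * cmp W.1 X.1 + X.2.1) L).testBit W.2.1 = true := by
  have A := fun k hk => (colA hta ha hb _ (cmp_lt W.1 X.1) W.2 X.2 k hk).2
  have h8 := (col n TA (cmp W.1 X.1) W.2 X.2).2
  rw [LM_bit, A _ (by omega), A _ (by omega), A _ (by omega), A _ (by omega)]
  omega

theorem tab_DD (hta : okTA n TA TB = true) (ha : okHA n TA = true) (hb : okHB n TB = true)
    (hdd : okDD n TA TE DD = true) (W X Y : ℚ × Fin n) (p : LV)
    (hw : (cw DD ((code p).1 % 2)).testBit W.2.1 = true)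
    (hd : d2 n TB (cmp W.1 X.1) (cmp W.1 Y.1) (cmp X.1 Y.1) W.2.1 X.2.1 Y.2.1
      ((code p).1 % 2) = true) : (tab n TA TE).DD p.1 W X Y := by
  have hL := code_if p
  have hm : ∀ U V : ℚ × Fin n, (tab n TA TE).lt U V = p.1 →
      (col n TA (cmp U.1 V.1) U.2 V.2).1 % 2 = (code p).1 % 2 := fun U V h => (lto_iff _ p).mp h
  have hf : ∀ U V : ℚ × Fin n, (tab n TA TE).lt U V = p.1 → (tab n TA TE).fr U V = true →
      (col n TA (cmp U.1 V.1) U.2 V.2).1 = 6 + (code p).1 % 2 := by
    intro U V h1 h2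
    have h3 := hm U V h1
    have h4 : 6 ≤ (col n TA (cmp U.1 V.1) U.2 V.2).1 := of_decide_eq_true h2
    have h5 := (col n TA (cmp U.1 V.1) U.2 V.2).2
    omega
  constructor
  · intro Z Z2 l1 f1 l2 f2 a he
    have hP := allP_spec (nv_contra (allB_spec (allB_spec hdd _ hL) W.2.1 W.2.2) hw)
      W.1 Z.1 Z2.1
    have g1 := (colA hta ha hb _ (cmp_lt W.1 Z.1) W.2 Z.2 _ (by omega)).1.mpr (hf _ _ l1 f1)
    have g2 := (colA hta ha hb _ (cmp_lt W.1 Z2.1) W.2 Z2.2 _ (by omega)).1.mpr (hf _ _ l2 f2)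
    have hk := nv_contra (allB_spec hP Z.2.1 Z.2.2) g1
    refine land_contra ?_ g2 hk
    rw [← cmp_swap, EL]
    rw [Nat.testBit_lor, Nat.testBit_lor, Bool.or_eq_true, Bool.or_eq_true]
    have hc : (code (p.1, a)).1 % 2 = (code p).1 % 2 := (code_lt _ _).mpr rfl
    have h6 := (code (p.1, a)).2
    have he' : (E TE (n * cmp Z2.1 Z.1 + Z.2.1) (code (p.1, a)).1).testBit Z2.2.1 = true := he
    have : (code (p.1, a)).1 = (code p).1 % 2 ∨ (code (p.1, a)).1 = 2 + (code p).1 % 2 ∨
        (code (p.1, a)).1 = 4 + (code p).1 % 2 := by omega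
    rcases this with h | h | h
    · left; rw [← h]; exact he'
    · right; left; rw [← h]; exact he'
    · right; right; rw [← h]; exact he'
  · intro V l1 f1 hcon
    have v1 := cmp_valid V.1 W.1 X.1
    have v2 := cmp_valid V.1 W.1 Y.1
    have v3 := cmp_valid V.1 X.1 Y.1
    have hv : (valid (cmp V.1 W.1) (cmp V.1 X.1) (cmp W.1 X.1) &&
        (valid (cmp V.1 W.1) (cmp V.1 Y.1) (cmp W.1 Y.1) &&
          valid (cmp V.1 X.1) (cmp V.1 Y.1) (cmp X.1 Y.1))) = true := by
      rw [v1, v2, v3]; rfl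
    have hk := nv_contra (allB_spec (allB_spec (allB_spec hd _ (cmp_lt V.1 W.1)) _
      (cmp_lt V.1 X.1)) _ (cmp_lt V.1 Y.1)) hv
    have g1 := (colA hta ha hb _ (cmp_lt V.1 W.1) V.2 W.2 _ (by omega)).2.mpr (hf _ _ l1 f1)
    have g2 := LMB hta ha hb V X _ hL (hm _ _ hcon.1)
    have g3 := LMB hta ha hb V Y _ hL (hm _ _ hcon.2)
    refine land_contra g1 ?_ hk
    rw [Nat.testBit_land, g2, g3]; rfl

theorem tab_h4 (hta : okTA n TA TB = true) (ha : okHA n TA = true) (hb : okHB n TB = true)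
    (hz : okZ n TB TE = true) (hdd : okDD n TA TE DD = true) (hr : okR n TB TE DD = true) :
    ∀ X Y k p q, ((tab n TA TE).Poss X Y k ∨ (tab n TA TE).Poss Y X k) → ¬ BadLV k p q →
    ∃ W, (tab n TA TE).Poss W X p ∧ (tab n TA TE).Poss W Y q ∧
      (p.1 = q.1 → ¬ (tab n TA TE).Dft W X p → ¬ (tab n TA TE).Dft W Y q →
        (tab n TA TE).DD p.1 W X Y) := by
  intro X Y k p q hpos hbad
  have hsz : ∀ (r : Nat) (hr : r < 3) (x : Fin n) (d : Fin 6) (i : Nat),
      (PC n TB TE r x.1 d.1).testBit i = true → i < n := by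
    intro r hr x d i hi
    have hz1 := allB_spec (allB_spec hz r hr) x.1 x.2
    rw [Bool.and_eq_true] at hz1
    have a1 : C TB (n * r + x.1) d.1 < 2 ^ n := by
      simpa [Nat.blt_eq] using allB_spec hz1.1 d.1 (by omega)
    have a2 : C TB (n * r + x.1) (6 + d.1 % 2) < 2 ^ n := by
      simpa [Nat.blt_eq] using allB_spec hz1.1 (6 + d.1 % 2) (by omega)
    have a3 : E TE (n * r + x.1) d.1 < 2 ^ n := by
      simpa [Nat.blt_eq] using allB_spec hz1.2 d.1 d.2
    have a4 : PC n TB TE r x.1 d.1 < 2 ^ n := Nat.or_lt_two_pow a1 (Nat.or_lt_two_pow a2 a3)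
    by_contra hge
    rw [Nat.testBit_lt_two_pow (lt_of_lt_of_le a4 (Nat.pow_le_pow_right (by norm_num)
      (by omega)))] at hi
    exact Bool.noConfusion hi
  have hR := allB_spec (allB_spec (allB_spec (allB_spec (allB_spec hr _ (cmp_lt X.1 Y.1))
    X.2.1 X.2.2) Y.2.1 Y.2.2) _ (code p).2) _ (code q).2
  rw [Bool.or_eq_true] at hR
  rcases hR with hR | hR
  swap
  · exfalso
    have hE := allB_spec hR _ (code k).2
    have hP : poss n TB TE (cmp X.1 Y.1) X.2.1 Y.2.1 (code k).1 = true := by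
      unfold poss
      rw [Bool.or_eq_true]
      rcases hpos with h | h
      · left; exact (pc_iff hta ha hb X Y k).mpr h
      · right; rw [← cmp_swap]; exact (pc_iff hta ha hb Y X k).mpr h
    exact hbad (code_bad' _ _ _ ((badN_spec _ _ _).mp (nv_contra hE hP)))
  obtain ⟨s, hs, hR⟩ := anyB_spec hR
  obtain ⟨t, ht, hR⟩ := anyB_spec hR
  rw [Bool.and_eq_true] at hR
  obtain ⟨hv, hR⟩ := hR
  obtain ⟨c, hcs, hct⟩ := realize X.1 Y.1 s t hs ht hv
  subst hcs; subst hct
  unfold srv at hR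
  split_ifs at hR with hpq
  · rw [Bool.or_eq_true] at hR
    rcases hR with hR | hR
    · rw [Bool.not_eq_true'] at hR
      have hne : ((PC n TB TE (cmp c X.1) X.2.1 (code p).1 &&&
          PC n TB TE (cmp c Y.1) Y.2.1 (code q).1) &&&
          (DC n TB (cmp c X.1) X.2.1 (code p).1 ||| DC n TB (cmp c Y.1) Y.2.1 (code q).1)) ≠ 0 := by
        intro h; rw [h] at hR; exact absurd hR (by decide)
      obtain ⟨i, hi⟩ := Nat.exists_testBit_of_ne_zero hne
      rw [Nat.testBit_land, Nat.testBit_land, Bool.and_eq_true, Bool.and_eq_true,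
        Nat.testBit_lor, Bool.or_eq_true] at hi
      obtain ⟨⟨i1, i2⟩, i3⟩ := hi
      have hin := hsz _ hs X.2 (code p) i i1
      refine ⟨(c, ⟨i, hin⟩), (pc_iff hta ha hb (c, ⟨i, hin⟩) X p).mp i1,
        (pc_iff hta ha hb (c, ⟨i, hin⟩) Y q).mp i2, ?_⟩
      intro _ n1 n2
      exfalso
      rcases i3 with i3 | i3
      · exact n1 ((dc_iff hta ha hb (c, ⟨i, hin⟩) X p).mp i3)
      · exact n2 ((dc_iff hta ha hb (c, ⟨i, hin⟩) Y q).mp i3)
    · obtain ⟨w, hw, hw2⟩ := anyB_spec hR
      rw [Bool.and_eq_true, Nat.testBit_land, Nat.testBit_land, Bool.and_eq_true,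
        Bool.and_eq_true] at hw2
      obtain ⟨⟨⟨w1, w2⟩, w3⟩, w4⟩ := hw2
      exact ⟨(c, ⟨w, hw⟩), (pc_iff hta ha hb (c, ⟨w, hw⟩) X p).mp w1,
        (pc_iff hta ha hb (c, ⟨w, hw⟩) Y q).mp w2,
        fun _ _ _ => tab_DD hta ha hb hdd (c, ⟨w, hw⟩) X Y p w3 w4⟩
  · rw [Bool.not_eq_true'] at hR
    have hne : (PC n TB TE (cmp c X.1) X.2.1 (code p).1 &&&
        PC n TB TE (cmp c Y.1) Y.2.1 (code q).1) ≠ 0 := by
      intro h; rw [h] at hR; exact absurd hR (by decide)
    obtain ⟨i, hi⟩ := Nat.exists_testBit_of_ne_zero hne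
    rw [Nat.testBit_land, Bool.and_eq_true] at hi
    have hin := hsz _ hs X.2 (code p) i hi.1
    refine ⟨(c, ⟨i, hin⟩), (pc_iff hta ha hb (c, ⟨i, hin⟩) X p).mp hi.1,
      (pc_iff hta ha hb (c, ⟨i, hin⟩) Y q).mp hi.2, ?_⟩
    intro hl
    exact absurd (by simpa using (code_lt p q).mpr hl) hpq

/-- **A table that passes the check gives a representation.** -/
theorem rep_of_lv (hn : 0 < n) (h : okAll n TA TB TE TR DD = true) :
    ∃ (U : Type) (r : Set Atom → Set (U × U)), IsRepresentation U r := by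
  unfold okAll at h
  simp only [Bool.and_eq_true] at h
  obtain ⟨hta, hte, ha, hb, hz, h1, h2, h3, hdd, hr⟩ := h
  have : Nonempty (ℚ × Fin n) := ⟨(0, ⟨0, hn⟩)⟩
  exact FOTab.rep_of_good (t := tab n TA TE) ⟨tab_h1 hta ha hb h1, tab_h2 hta ha hb h2,
    tab_h3 hta hte ha hb h3, tab_h4 hta ha hb hz hdd hr⟩

end spec

end Pool.Agent.Helper7.Lv
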